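import Pool.Agent.Helper1.UQ.St2

/-! # Project UQ, module ISO: invariance under automorphisms -/

set_option autoImplicit false

open Finset

namespace Pool.Agent.Helper38.UQ

open Classical Pool.Agent.Helper30.RCU Pool.Agent.Helper1.UQ

universe u

section

variable {V : Type u} {G : SimpleGraph V}

/-- action on the edges and ghost edges -/
private def jE (g : G ≃g G) : GE G ↪ GE G :=
  (Equiv.sumCongr g.mapEdgeSet g.toEquiv).toEmbedding

/-- action on the vertices and the ghost -/
private def jV (g : G ≃g G) : Option V ↪ Option V := (Equiv.optionCongr g.toEquiv).toEmbedding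

private theorem jE_inl (g : G ≃g G) (e : G.edgeSet) :
    jE g (Sum.inl e) = Sum.inl (g.mapEdgeSet e) := rfl

private theorem jE_inr (g : G ≃g G) (v : V) : jE g (Sum.inr v) = Sum.inr (g v) := rfl

private theorem jV_some (g : G ≃g G) (v : V) : jV g (some v) = some (g v) := rfl

private theorem jV_none (g : G ≃g G) : jV g none = none := rfl

private theorem val_map (g : G ≃g G) (e : G.edgeSet) :
    ((g.mapEdgeSet e : G.edgeSet) : Sym2 V) = (e : Sym2 V).map g := rfl

private theorem ph_j (g : G ≃g G) (e : GE G) : ph G (jE g e) = (ph G e).map (jV g) := by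
  rcases e with e | v
  · rw [jE_inl]
    show Sym2.map some ((g.mapEdgeSet e : G.edgeSet) : Sym2 V) = Sym2.map (jV g) (Sym2.map some e)
    rw [val_map, Sym2.map_map, Sym2.map_map]
    rfl
  · rfl

private theorem sg_j (g : G ≃g G) (I : Finset V) (o : Option V) :
    sg (I.map g.toEquiv.toEmbedding) (jV g o) = jV g (sg I o) := by
  rcases o with _ | v
  · rfl
  · rw [jV_some]
    by_cases h : v ∈ I
    · rw [sg_some_of_mem h, jV_some, sg_some_of_mem]
      exact mem_map_of_mem _ h
    · rw [sg_some_of_notMem h, jV_none, sg_some_of_notMem]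
      intro h'
      obtain ⟨w, hw, hwv⟩ := mem_map.1 h'
      have : w = v := g.toEquiv.injective hwv
      rw [this] at hw
      exact h hw

private theorem pI_j (g : G ≃g G) (I : Finset V) (e : GE G) :
    pI G (I.map g.toEquiv.toEmbedding) (jE g e) = (pI G I e).map (jV g) := by
  unfold pI cm
  rw [ph_j, Sym2.map_map, Sym2.map_map]
  congr 1
  funext o
  exact sg_j g I o

private theorem pr_j (g : G ≃g G) (p t : ℝ) (e : GE G) : pr G p t (jE g e) = pr G p t e := by
  rcases e with e | v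
  · rfl
  · rfl

private theorem disj_j (g : G ≃g G) (A : Finset G.edgeSet) (U : Finset V) :
    (A.disjSum U).map (jE g) =
      (A.map g.mapEdgeSet.toEmbedding).disjSum (U.map g.toEquiv.toEmbedding) := by
  ext x
  rw [mem_map]
  constructor
  · rintro ⟨y, hy, rfl⟩
    rcases y with e | v
    · rw [jE_inl, inl_mem_disjSum]
      exact mem_map_of_mem _ (inl_mem_disjSum.1 hy)
    · rw [jE_inr, inr_mem_disjSum]
      exact mem_map_of_mem _ (inr_mem_disjSum.1 hy)
  · intro hx
    rcases x with e | v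
    · rw [inl_mem_disjSum, mem_map] at hx
      obtain ⟨e', he', rfl⟩ := hx
      exact ⟨Sum.inl e', inl_mem_disjSum.2 he', rfl⟩
    · rw [inr_mem_disjSum, mem_map] at hx
      obtain ⟨v', hv', rfl⟩ := hx
      exact ⟨Sum.inr v', inr_mem_disjSum.2 hv', rfl⟩

private theorem te_j (hlf : ∀ v, (G.neighborSet v).Finite) (g : G ≃g G) (I : Finset V) :
    te G (I.map g.toEquiv.toEmbedding) = (te G I).map g.mapEdgeSet.toEmbedding := by
  ext e
  rw [mem_te hlf, mem_map]
  constructor
  · rintro ⟨v, hv, hvI⟩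
    obtain ⟨w, hw, rfl⟩ := mem_map.1 hvI
    refine ⟨g.mapEdgeSet.symm e, ?_, g.mapEdgeSet.apply_symm_apply e⟩
    rw [mem_te hlf]
    refine ⟨w, ?_, hw⟩
    have h1 : (e : Sym2 V) = ((g.mapEdgeSet.symm e : G.edgeSet) : Sym2 V).map g := by
      rw [← val_map, Equiv.apply_symm_apply]
    rw [h1, Sym2.mem_map] at hv
    obtain ⟨w', hw', h2⟩ := hv
    have : w' = w := g.toEquiv.injective h2
    rwa [this] at hw'
  · rintro ⟨e', he', rfl⟩
    rw [mem_te hlf] at he'
    obtain ⟨v, hv, hvI⟩ := he'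
    refine ⟨g v, ?_, mem_map_of_mem _ hvI⟩
    show g v ∈ ((g.mapEdgeSet e' : G.edgeSet) : Sym2 V)
    rw [val_map, Sym2.mem_map]
    exact ⟨v, hv, rfl⟩

private theorem oe_j (g : G ≃g G) (e : G.edgeSet) (ω : Finset (GE G)) :
    oe (Sum.inl (g.mapEdgeSet e) : GE G) (ω.map (jE g)) = oe (Sum.inl e) ω := by
  unfold oe
  rw [← jE_inl]
  congr 1
  rw [mem_map']

private theorem insert_j (hlf : ∀ v, (G.neighborSet v).Finite) (g : G ≃g G) (I : Finset V)
    (e : G.edgeSet) : insert (g.mapEdgeSet e) (te G (I.map g.toEquiv.toEmbedding)) =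
      (insert e (te G I)).map g.mapEdgeSet.toEmbedding := by
  rw [te_j hlf, map_insert]
  rfl

private theorem wI_j (h : StREL.{u}) (hlf : ∀ v, (G.neighborSet v).Finite) (g : G ≃g G) (p q : ℝ)
    (I : Finset V) (e : G.edgeSet) :
    Helper1.UQ.wI G p q (I.map g.toEquiv.toEmbedding) (g.mapEdgeSet e) = Helper1.UQ.wI G p q I e := by
  unfold Helper1.UQ.wI eD
  have h1 := (h _ _ _ _ (jE g) (jV g) (pI G I) (pI G (I.map g.toEquiv.toEmbedding)) (pr G p 0)
    (pr G p 0) q (pI_j g I) (pr_j g p 0) ((insert e (te G I)).disjSum ∅)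
    (oe (Sum.inl (g.mapEdgeSet e)))).1
  rw [disj_j, ← insert_j hlf, map_empty] at h1
  rw [h1]
  congr 1
  funext ω
  exact oe_j g e ω

private theorem hI_j (h : StREL.{u}) (hlf : ∀ v, (G.neighborSet v).Finite) (g : G ≃g G)
    (p t q : ℝ) (I : Finset V) (e : G.edgeSet) :
    hI G p t q (I.map g.toEquiv.toEmbedding) (g.mapEdgeSet e) = hI G p t q I e := by
  unfold hI eD
  have h1 := (h _ _ _ _ (jE g) (jV g) (pI G I) (pI G (I.map g.toEquiv.toEmbedding)) (pr G p t)
    (pr G p t) q (pI_j g I) (pr_j g p t) ((insert e (te G I)).disjSum I)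
    (oe (Sum.inl (g.mapEdgeSet e)))).1
  rw [disj_j, ← insert_j hlf] at h1
  rw [h1]
  congr 1
  funext ω
  exact oe_j g e ω

private theorem fI_j (h : StREL.{u}) (hlf : ∀ v, (G.neighborSet v).Finite) (g : G ≃g G)
    (p q : ℝ) (I : Finset V) (e : G.edgeSet) :
    fI G p q (I.map g.toEquiv.toEmbedding) (g.mapEdgeSet e) = fI G p q I e := by
  unfold fI
  have h1 := (h _ _ _ _ (jE g) (jV g) (ph G) (ph G) (pr G p 0)
    (pr G p 0) q (ph_j g) (pr_j g p 0) ((te G I).disjSum ∅)
    (oe (Sum.inl (g.mapEdgeSet e)))).1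
  rw [disj_j, ← te_j hlf, map_empty] at h1
  rw [h1]
  congr 1
  funext ω
  exact oe_j g e ω

private theorem th_j (h : StREL.{u}) (hlf : ∀ v, (G.neighborSet v).Finite) (g : G ≃g G)
    (p q : ℝ) (I : Finset V) (x : V) :
    th G p q (I.map g.toEquiv.toEmbedding) (g x) = th G p q I x := by
  unfold th eD
  have h1 := h _ _ _ _ (jE g) (jV g) (pI G I) (pI G (I.map g.toEquiv.toEmbedding)) (pr G p 0)
    (pr G p 0) q (pI_j g I) (pr_j g p 0) ((te G I).disjSum ∅)
    (ind (pI G (I.map g.toEquiv.toEmbedding)) (some (g x)) none)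
  obtain ⟨h1, h2⟩ := h1
  rw [disj_j, ← te_j hlf, map_empty] at h1
  rw [h1]
  congr 1
  funext ω
  unfold ind
  congr 1
  rw [← jV_some, ← jV_none g]
  exact propext (h2 ω (some x) none)

private theorem bl_j (hG : G.Connected) (hlf : ∀ v, (G.neighborSet v).Finite) (g : G ≃g G)
    (x : V) (n : ℕ) : bl G (g x) n = (bl G x n).map g.toEquiv.toEmbedding := by
  ext v
  rw [mem_bl hG hlf, mem_map]
  constructor
  · intro hv
    refine ⟨g.symm v, ?_, by simp⟩
    rw [mem_bl hG hlf]
    have h1 := dist_iso hG g x (g.symm v)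
    have h2 : g (g.symm v) = v := g.apply_symm_apply v
    rw [h2] at h1
    rw [← h1]
    exact hv
  · rintro ⟨w, hw, rfl⟩
    rw [mem_bl hG hlf] at hw
    have h1 := dist_iso hG g x w
    show G.dist (g x) (g w) < n
    rw [h1]
    exact hw

end

/-- ISO. Invariance under automorphisms. -/
theorem hISO (h : StREL.{u}) : StISO.{u} := by
  intro V G hG hlf p t q _ g e
  refine ⟨?_, ?_, ?_, ?_, ?_⟩
  · unfold w8
    exact ((Equiv.finsetCongr g.toEquiv).iInf_congr fun I => wI_j h hlf g p q I e).symm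
  · unfold h8
    exact ((Equiv.finsetCongr g.toEquiv).iInf_congr fun I => hI_j h hlf g p t q I e).symm
  · unfold f8
    exact ((Equiv.finsetCongr g.toEquiv).iSup_congr fun I => fI_j h hlf g p q I e).symm
  · intro x n
    rw [bl_j hG hlf]
    exact ⟨wI_j h hlf g p q _ e, hI_j h hlf g p t q _ e, th_j h hlf g p q _ x⟩
  · intro v
    have h1 : ({g v} : Finset V) = ({v} : Finset V).map g.toEquiv.toEmbedding := by
      rw [map_singleton]
      rfl
    rw [h1, te_j hlf, card_map]

end Pool.Agent.Helper38.UQ
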